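import Mathlib

/-!
# Power graph and commuting graph of a group (the whole group is the vertex set)
-/

namespace Q20.PowCom

/-- The power graph: distinct `x`, `y` are adjacent iff one of them is a power of the other. -/
def powerGraph (G : Type*) [Group G] : SimpleGraph G where
  Adj x y := x ≠ y ∧ ∃ m : ℤ, x = y ^ m ∨ y = x ^ m
  symm := ⟨fun _ _ h => ⟨h.1.symm, h.2.imp fun _ h' => h'.symm⟩⟩
  loopless := ⟨fun _ h => h.1 rfl⟩

/-- The commuting graph: distinct `x`, `y` are adjacent iff `x y = y x`. -/
def commutingGraph (G : Type*) [Group G] : SimpleGraph G where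
  Adj x y := x ≠ y ∧ x * y = y * x
  symm := ⟨fun _ _ h => ⟨h.1.symm, h.2.symm⟩⟩
  loopless := ⟨fun _ h => h.1 rfl⟩

end Q20.PowCom
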