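import Pool.Agent.Q20.PowCom.Defs

namespace Q20.PowCom

open Subgroup
open scoped Pointwise

section one

variable {G : Type*} [Group G]

/-- comparable elements -/
def Cmp (x y : G) : Prop := x ∈ zpowers y ∨ y ∈ zpowers x

lemma Cmp.symm {x y : G} (h : Cmp x y) : Cmp y x := Or.symm h

lemma Cmp.commute {x y : G} (h : Cmp x y) : x * y = y * x := by
  rcases h with ⟨m, rfl⟩ | ⟨m, rfl⟩
  · exact ((Commute.refl y).zpow_left m).eq
  · exact ((Commute.refl x).zpow_right m).eq

lemma adj_pow_iff {x y : G} : (powerGraph G).Adj x y ↔ x ≠ y ∧ Cmp x y := by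
  constructor
  · rintro ⟨h, m, rfl | rfl⟩
    · exact ⟨h, Or.inl ⟨m, rfl⟩⟩
    · exact ⟨h, Or.inr ⟨m, rfl⟩⟩
  · rintro ⟨h, ⟨m, hm⟩ | ⟨m, hm⟩⟩
    · exact ⟨h, m, Or.inl hm.symm⟩
    · exact ⟨h, m, Or.inr hm.symm⟩

/-- every element has prime power order -/
def IsEPPO (G : Type*) [Group G] : Prop := ∀ g : G, ∃ p k : ℕ, p.Prime ∧ orderOf g = p ^ k

variable [Finite G]

lemma mem_of_dvd {x a b : G} (ha : a ∈ zpowers x) (hb : b ∈ zpowers x)
    (h : orderOf a ∣ orderOf b) : a ∈ zpowers b := by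
  rw [← mem_powers_iff_mem_zpowers] at ha hb
  obtain ⟨i, rfl⟩ := ha
  obtain ⟨j, rfl⟩ := hb
  simp only at h ⊢
  rw [orderOf_pow, orderOf_pow] at h
  have hm : 0 < orderOf x := orderOf_pos x
  obtain ⟨ei, hei⟩ := Nat.gcd_dvd_left (orderOf x) i
  obtain ⟨ej, hej⟩ := Nat.gcd_dvd_left (orderOf x) j
  have hdi : 0 < (orderOf x).gcd i := Nat.gcd_pos_of_pos_left _ hm
  have hdj : 0 < (orderOf x).gcd j := Nat.gcd_pos_of_pos_left _ hm
  have e1 : orderOf x / (orderOf x).gcd i = ei := by
    nth_rewrite 1 [hei]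
    exact Nat.mul_div_cancel_left _ hdi
  have e2 : orderOf x / (orderOf x).gcd j = ej := by
    nth_rewrite 1 [hej]
    exact Nat.mul_div_cancel_left _ hdj
  rw [e1, e2] at h
  obtain ⟨k, hk⟩ := h
  have hei0 : 0 < ei := by
    rcases Nat.eq_zero_or_pos ei with h0 | h0
    · rw [h0, mul_zero] at hei; omega
    · exact h0
  have h3 : (orderOf x).gcd i = (orderOf x).gcd j * k := by
    have : (orderOf x).gcd i * ei = ((orderOf x).gcd j * k) * ei := by
      rw [← hei]
      nth_rewrite 1 [hej]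
      rw [hk]; ring
    exact Nat.eq_of_mul_eq_mul_right hei0 this
  have h4 : (orderOf x).gcd j ∣ i := (Dvd.intro k h3.symm).trans (Nat.gcd_dvd_right _ _)
  obtain ⟨l, hl⟩ := h4
  have h5 : x ^ ((orderOf x).gcd j) ∈ zpowers (x ^ j) := by
    refine ⟨Nat.gcdB (orderOf x) j, ?_⟩
    have hb := Nat.gcd_eq_gcd_ab (orderOf x) j
    have : x ^ (((orderOf x).gcd j : ℕ) : ℤ) = (x ^ j) ^ (Nat.gcdB (orderOf x) j) := by
      rw [hb, zpow_add, zpow_mul, zpow_natCast, pow_orderOf_eq_one, one_zpow, one_mul, zpow_mul,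
        zpow_natCast]
    rw [← zpow_natCast x ((orderOf x).gcd j)]
    exact this.symm
  rw [hl, pow_mul]
  exact Subgroup.pow_mem _ h5 l

lemma cmp_of_pgroup {w a b : G} {p k : ℕ} (hp : p.Prime) (hw : orderOf w = p ^ k)
    (ha : a ∈ zpowers w) (hb : b ∈ zpowers w) : Cmp a b := by
  have h1 : orderOf a ∣ p ^ k := hw ▸ orderOf_dvd_of_mem_zpowers ha
  have h2 : orderOf b ∣ p ^ k := hw ▸ orderOf_dvd_of_mem_zpowers hb
  obtain ⟨i, -, hi⟩ := (Nat.dvd_prime_pow hp).1 h1
  obtain ⟨j, -, hj⟩ := (Nat.dvd_prime_pow hp).1 h2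
  rcases le_total i j with h | h
  · left
    apply mem_of_dvd ha hb
    rw [hi, hj]; exact pow_dvd_pow p h
  · right
    apply mem_of_dvd hb ha
    rw [hi, hj]; exact pow_dvd_pow p h

/-- the centralizer of a nontrivial `p`-element is a `p`-group -/
lemma centralizer_pgroup (h : IsEPPO G) {p : ℕ} [hp : Fact p.Prime] {s : G} (hs : s ≠ 1)
    {k : ℕ} (hso : orderOf s = p ^ k) : IsPGroup p (centralizer ({s} : Set G)) := by
  rw [IsPGroup.iff_orderOf]
  rintro ⟨g, hg⟩
  rw [Subgroup.orderOf_mk]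
  obtain ⟨q, j, hq, hj⟩ := h g
  by_cases hqp : q = p
  · subst hqp; exact ⟨j, hj⟩
  · by_cases hj0 : j = 0
    · exact ⟨0, by rw [hj, hj0, pow_zero, pow_zero]⟩
    · exfalso
      have hk0 : k ≠ 0 := by
        rintro rfl
        rw [pow_zero, orderOf_eq_one_iff] at hso
        exact hs hso
      have hcomm : Commute g s := by
        rw [mem_centralizer_singleton_iff] at hg
        exact hg
      have hcop : Nat.Coprime (orderOf g) (orderOf s) := by
        rw [hj, hso]
        exact Nat.Coprime.pow _ _ ((Nat.coprime_primes hq hp.out).2 hqp)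
      have ho := hcomm.orderOf_mul_eq_mul_orderOf_of_coprime hcop
      obtain ⟨r, l, hr, hl⟩ := h (g * s)
      rw [hl, hj, hso] at ho
      have h1 : q ∣ r ^ l := by
        rw [ho]; exact (dvd_pow_self q hj0).trans (Dvd.intro _ rfl)
      have h2 : p ∣ r ^ l := by
        rw [ho]; exact (dvd_pow_self p hk0).trans (Dvd.intro_left _ rfl)
      have h3 := (Nat.prime_dvd_prime_iff_eq hq hr).1 (hq.dvd_of_dvd_pow h1)
      have h4 := (Nat.prime_dvd_prime_iff_eq hp.out hr).1 (hp.out.dvd_of_dvd_pow h2)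
      exact hqp (h3.trans h4.symm)

/-- the number of elements comparable with a nontrivial `q`-element is divisible by `q` -/
lemma dvd_card_cmp (h : IsEPPO G) {q b : ℕ} [hq : Fact q.Prime] {x : G} (hx : x ≠ 1)
    (hxo : orderOf x = q ^ b) : q ∣ Nat.card {v : G // Cmp v x} := by
  classical
  have hb : b ≠ 0 := by
    rintro rfl
    rw [pow_zero, orderOf_eq_one_iff] at hxo
    exact hx hxo
  obtain ⟨c, rfl⟩ := Nat.exists_eq_succ_of_ne_zero hb
  set u : G := x ^ q ^ c with hu
  have hu1 : u ≠ 1 := by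
    intro h1
    have := orderOf_dvd_of_pow_eq_one h1
    rw [hxo] at this
    have := Nat.le_of_dvd (pow_pos hq.out.pos _) this
    exact absurd this (not_le.2 (Nat.pow_lt_pow_right hq.out.one_lt (Nat.lt_succ_self c)))
  have huq : u ^ q = 1 := by
    rw [hu, ← pow_mul, ← pow_succ]
    rw [← hxo]; exact pow_orderOf_eq_one x
  have hux : u ∈ zpowers x := Subgroup.pow_mem _ (mem_zpowers x) _
  -- closure under multiplication by elements of `zpowers x`
  have hclos : ∀ v w : G, Cmp v x → w ∈ zpowers x → Cmp (v * w) x := by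
    intro v w hv hw
    by_cases hvx : v ∈ zpowers x
    · exact Or.inl (Subgroup.mul_mem _ hvx hw)
    · have hxv : x ∈ zpowers v := by
        rcases hv with hv | hv
        · exact absurd hv hvx
        · exact hv
      right
      have hwv : w ∈ zpowers v := (zpowers_le.2 hxv) hw
      rw [← mem_powers_iff_mem_zpowers] at hwv
      obtain ⟨k, hk⟩ := hwv
      simp only at hk
      obtain ⟨r, j, hr, hj⟩ := h v
      have hj0 : j ≠ 0 := by
        rintro rfl
        rw [pow_zero, orderOf_eq_one_iff] at hj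
        rw [hj] at hvx
        exact hvx (Subgroup.one_mem _)
      have hrk : r ∣ k := by
        by_contra hrk
        apply hvx
        have hcop : k.gcd (orderOf v) = 1 := by
          rw [hj]
          exact Nat.Coprime.pow_right _ ((Nat.Prime.coprime_iff_not_dvd hr).2 hrk).symm
        have := mem_zpowers_pow_iff.2 hcop
        rw [hk] at this
        exact (zpowers_le.2 hw) this
      have hcop : (1 + k).gcd (orderOf v) = 1 := by
        rw [hj]
        refine Nat.Coprime.pow_right _ ?_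
        rw [Nat.coprime_comm, Nat.Prime.coprime_iff_not_dvd hr]
        intro h2
        have := (Nat.dvd_add_left hrk).1 h2
        exact hr.one_lt.ne' (Nat.dvd_one.1 this)
      have h3 := mem_zpowers_pow_iff.2 hcop
      rw [pow_add, pow_one, hk] at h3
      exact (zpowers_le.2 h3) hxv
  by_contra hnd
  haveI := Fintype.ofFinite {v : G // Cmp v x}
  rw [Nat.card_eq_fintype_card] at hnd
  have hui : u⁻¹ ∈ zpowers x := Subgroup.inv_mem _ hux
  let σ : Equiv.Perm {v : G // Cmp v x} :=
    { toFun := fun v => ⟨v.1 * u, hclos _ _ v.2 hux⟩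
      invFun := fun v => ⟨v.1 * u⁻¹, hclos _ _ v.2 hui⟩
      left_inv := fun v => by simp
      right_inv := fun v => by simp }
  have hpow : ∀ n : ℕ, ∀ v : {v : G // Cmp v x}, ((σ ^ n) v).1 = v.1 * u ^ n := by
    intro n
    induction n with
    | zero => intro v; simp
    | succ n ih =>
      intro v
      rw [pow_succ', Equiv.Perm.mul_apply]
      have : (σ ((σ ^ n) v)).1 = ((σ ^ n) v).1 * u := rfl
      rw [this, ih v, pow_succ, mul_assoc]
  have hσ : σ ^ q ^ 1 = 1 := by
    ext v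
    rw [hpow, pow_one, huq]; simp
  obtain ⟨a, ha⟩ := Equiv.Perm.exists_fixed_point_of_prime hnd hσ
  have h4 : a.1 * u = a.1 := congrArg Subtype.val ha
  exact hu1 (by simpa using h4)

/-- uniqueness of the subgroups of order `p` in the centralizer of `s` gives that commuting
elements are comparable -/
lemma mem_of_unique {p : ℕ} [hp : Fact p.Prime] {s : G} {i : ℕ} (hs : s ≠ 1)
    (hso : orderOf s = p ^ i)
    (hU : ∀ w₁ w₂ : G, w₁ ∈ centralizer ({s} : Set G) → w₂ ∈ centralizer ({s} : Set G) →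
      orderOf w₁ = p → orderOf w₂ = p → w₂ ∈ zpowers w₁) :
    ∀ j : ℕ, j ≤ i → ∀ t : G, t ∈ centralizer ({s} : Set G) → orderOf t = p ^ j →
      t ∈ zpowers s := by
  have hi0 : i ≠ 0 := by
    rintro rfl
    rw [pow_zero, orderOf_eq_one_iff] at hso
    exact hs hso
  obtain ⟨c, rfl⟩ := Nat.exists_eq_succ_of_ne_zero hi0
  intro j
  induction j with
  | zero =>
    intro _ t _ ht
    rw [pow_zero, orderOf_eq_one_iff] at ht
    rw [ht]; exact Subgroup.one_mem _
  | succ j ih =>
    intro hj t htc ht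
    have htp : orderOf (t ^ p) = p ^ j := by
      rw [orderOf_pow_of_dvd hp.out.ne_zero (by rw [ht]; exact dvd_pow_self p (Nat.succ_ne_zero j)),
        ht, pow_succ]
      exact Nat.mul_div_cancel _ hp.out.pos
    have h1 := ih (by omega) (t ^ p) (Subgroup.pow_mem _ htc p) htp
    rw [← mem_powers_iff_mem_zpowers] at h1
    obtain ⟨k, hk⟩ := h1
    simp only at hk
    have hpk : p ∣ k := by
      by_contra hpk
      have hcop : k.gcd (orderOf s) = 1 := by
        rw [hso]
        exact Nat.Coprime.pow_right _ ((Nat.Prime.coprime_iff_not_dvd hp.out).2 hpk).symm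
      have h2 : orderOf (s ^ k) = orderOf s := by
        rw [orderOf_pow, Nat.gcd_comm, hcop, Nat.div_one]
      rw [hk, htp, hso] at h2
      have := Nat.pow_right_injective hp.out.two_le h2
      omega
    obtain ⟨m, rfl⟩ := hpk
    have hcomm : Commute t s := by
      rw [mem_centralizer_singleton_iff] at htc
      exact htc
    set w₂ : G := t * (s ^ m)⁻¹ with hw₂
    have hw₂p : w₂ ^ p = 1 := by
      have hc2 : Commute t (s ^ m)⁻¹ := (hcomm.pow_right m).inv_right
      rw [hw₂, hc2.mul_pow, ← hk, inv_pow, ← pow_mul, mul_comm m p, mul_inv_cancel]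
    have hsc : s ∈ centralizer ({s} : Set G) := by
      rw [mem_centralizer_singleton_iff]
    have hw₂c : w₂ ∈ centralizer ({s} : Set G) :=
      Subgroup.mul_mem _ htc (Subgroup.inv_mem _ (Subgroup.pow_mem _ hsc m))
    have hw₂s : w₂ ∈ zpowers s := by
      by_cases h1 : w₂ = 1
      · rw [h1]; exact Subgroup.one_mem _
      · have ho2 : orderOf w₂ = p := orderOf_eq_prime hw₂p h1
        have ho1 : orderOf (s ^ p ^ c) = p := by
          rw [orderOf_pow_of_dvd (pow_ne_zero _ hp.out.ne_zero)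
            (by rw [hso]; exact pow_dvd_pow p (Nat.le_succ c)), hso, pow_succ]
          exact Nat.mul_div_cancel_left _ (pow_pos hp.out.pos c)
        have := hU _ _ (Subgroup.pow_mem _ hsc _) hw₂c ho1 ho2
        exact (zpowers_le.2 (Subgroup.pow_mem _ (mem_zpowers s) _)) this
    have : t = w₂ * s ^ m := by rw [hw₂]; group
    rw [this]
    exact Subgroup.mul_mem _ hw₂s (Subgroup.pow_mem _ (mem_zpowers s) _)

end one

variable {G₁ G₂ : Type*} [Group G₁] [Group G₂]

lemma cmp_iff (φ : powerGraph G₁ ≃g commutingGraph G₂) (x y : G₁) :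
    Cmp x y ↔ φ x * φ y = φ y * φ x := by
  by_cases hxy : x = y
  · subst hxy
    exact ⟨fun _ => rfl, fun _ => Or.inl (mem_zpowers x)⟩
  · have h := φ.map_adj_iff (v := x) (w := y)
    rw [adj_pow_iff] at h
    have hne : φ x ≠ φ y := fun h' => hxy (φ.injective h')
    constructor
    · intro hc
      exact (h.2 ⟨hxy, hc⟩).2
    · intro hc
      exact (h.1 ⟨hne, hc⟩).2

variable [Finite G₁] [Finite G₂]

omit [Finite G₁] [Finite G₂] in
lemma card_cmp (φ : powerGraph G₁ ≃g commutingGraph G₂) (x : G₁) :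
    Nat.card {v : G₁ // Cmp v x} = Nat.card (centralizer ({φ x} : Set G₂)) := by
  apply Nat.card_congr
  refine Equiv.subtypeEquiv φ.toEquiv (fun v => ?_)
  rw [mem_centralizer_singleton_iff]
  exact cmp_iff φ v x

lemma eppo1 (φ : powerGraph G₁ ≃g commutingGraph G₂) : IsEPPO G₁ := by
  classical
  by_contra hcon
  unfold IsEPPO at hcon
  push Not at hcon
  obtain ⟨g, hg⟩ := hcon
  obtain ⟨x, hgx, hmax⟩ := Set.exists_max_image {x : G₁ | g ∈ zpowers x} orderOf
    (Set.toFinite _) ⟨g, mem_zpowers g⟩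
  have hgx' : g ∈ zpowers x := hgx
  have hxn : ∀ p k : ℕ, p.Prime → orderOf x ≠ p ^ k := by
    intro p k hp hk
    have := orderOf_dvd_of_mem_zpowers hgx'
    rw [hk] at this
    obtain ⟨i, -, hi⟩ := (Nat.dvd_prime_pow hp).1 this
    exact hg p i hp hi
  have hxmax : ∀ v, x ∈ zpowers v → v ∈ zpowers x := by
    intro v hv
    have h1 : zpowers x ≤ zpowers v := zpowers_le.2 hv
    have h2 : orderOf v ≤ orderOf x := hmax v (h1 hgx')
    have h3 : zpowers x = zpowers v := by
      apply Subgroup.eq_of_le_of_card_ge h1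
      rw [Nat.card_zpowers, Nat.card_zpowers]
      exact h2
    rw [h3]; exact mem_zpowers v
  have hcmpx : ∀ v, Cmp v x ↔ v ∈ zpowers x :=
    fun v => ⟨fun h => h.elim id (hxmax v), Or.inl⟩
  set m := orderOf x with hm
  have hm0 : 0 < m := orderOf_pos x
  have hm1 : m ≠ 1 := fun h => hxn 2 0 Nat.prime_two (by rw [pow_zero]; exact h)
  set p := m.minFac with hpdef
  have hp : p.Prime := Nat.minFac_prime hm1
  have hpm : p ∣ m := Nat.minFac_dvd m
  obtain ⟨q, hq, hqm, hqp⟩ : ∃ q, q.Prime ∧ q ∣ m ∧ q ≠ p := by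
    by_contra hno
    push Not at hno
    exact hxn p _ hp (Nat.eq_prime_pow_of_unique_prime_dvd hm0.ne' (fun {d} hd hdm => hno d hd hdm))
  set u := x ^ (m / p) with hu
  have huo : orderOf u = p := by
    rw [hu, hm]
    exact orderOf_pow_orderOf_div (hm ▸ hm0.ne') hpm
  have hux : u ∈ zpowers x := Subgroup.pow_mem _ (mem_zpowers x) _
  set w := x ^ (m / q) with hw
  have hwo : orderOf w = q := by
    rw [hw, hm]
    exact orderOf_pow_orderOf_div (hm ▸ hm0.ne') hqm
  have hwx : w ∈ zpowers x := Subgroup.pow_mem _ (mem_zpowers x) _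
  have hchar : ∀ v ∈ zpowers x, (Cmp v u ↔ v = 1 ∨ p ∣ orderOf v) := by
    intro v hv
    constructor
    · rintro (h | h)
      · have h1 := orderOf_dvd_of_mem_zpowers h
        rw [huo] at h1
        rcases (Nat.dvd_prime hp).1 h1 with h2 | h2
        · left; rwa [orderOf_eq_one_iff] at h2
        · right; rw [h2]
      · right
        have h1 := orderOf_dvd_of_mem_zpowers h
        rwa [huo] at h1
    · rintro (rfl | h)
      · exact Or.inl (Subgroup.one_mem _)
      · right
        apply mem_of_dvd hux hv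
        rw [huo]; exact h
  -- the set `S` corresponds to a subgroup
  set C : Subgroup G₂ := centralizer ({φ x} : Set G₂) with hC
  set D : Subgroup G₂ := centralizer ({φ x} : Set G₂) ⊓ centralizer ({φ u} : Set G₂) with hD
  have hSD : Nat.card {v : G₁ // v ∈ zpowers x ∧ (v = 1 ∨ p ∣ orderOf v)} = Nat.card D := by
    apply Nat.card_congr
    refine Equiv.subtypeEquiv φ.toEquiv (fun v => ?_)
    have e1 : φ.toEquiv v ∈ D ↔ (φ v * φ x = φ x * φ v) ∧ (φ v * φ u = φ u * φ v) := by
      rw [hD, Subgroup.mem_inf, mem_centralizer_singleton_iff, mem_centralizer_singleton_iff]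
      rfl
    rw [e1, ← cmp_iff, ← cmp_iff, hcmpx]
    constructor
    · rintro ⟨h1, h2⟩
      exact ⟨h1, (hchar v h1).2 h2⟩
    · rintro ⟨h1, h2⟩
      exact ⟨h1, (hchar v h1).1 h2⟩
  have hCm : Nat.card C = m := by
    rw [hC, ← card_cmp φ x, hm, ← Nat.card_zpowers]
    apply Nat.card_congr
    exact Equiv.subtypeEquivRight hcmpx
  have hDm : Nat.card D ∣ m := by
    rw [← hCm]
    exact Subgroup.card_dvd_of_le inf_le_left
  -- the counting
  haveI := Fintype.ofFinite G₁
  set X : Finset G₁ := Finset.univ.filter (fun v => v ∈ zpowers x) with hX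
  set K : Finset G₁ := X.filter (fun v => ¬ p ∣ orderOf v) with hK
  set S' : Finset G₁ := X.filter (fun v => p ∣ orderOf v) with hS'
  have hXc : X.card = m := by
    rw [hm, ← Nat.card_zpowers, Nat.card_eq_fintype_card, ← Fintype.card_coe]
    apply Fintype.card_congr
    refine Equiv.subtypeEquivRight (fun v => ?_)
    simp [hX]
  have hKS : S'.card + K.card = m := by
    rw [← hXc, hS', hK]
    exact Finset.card_filter_add_card_filter_not _
  have hinj : K.card ≤ S'.card := by
    apply Finset.card_le_card_of_injOn (fun v => v * u)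
    · intro v hv
      simp only [hK, hX, Finset.coe_filter, Finset.mem_filter, Finset.mem_univ, true_and,
        Set.mem_setOf_eq] at hv
      simp only [hS', hX, Finset.coe_filter, Finset.mem_filter, Finset.mem_univ, true_and,
        Set.mem_setOf_eq]
      refine ⟨Subgroup.mul_mem _ hv.1 hux, ?_⟩
      have hcomm : Commute v u := by
        obtain ⟨a, ha⟩ := hv.1
        obtain ⟨b, hb⟩ := hux
        simp only at ha hb
        rw [← ha, ← hb]
        exact (Commute.refl x).zpow_zpow a b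
      have hcop : Nat.Coprime (orderOf v) (orderOf u) := by
        rw [huo]
        exact ((Nat.Prime.coprime_iff_not_dvd hp).2 hv.2).symm
      rw [hcomm.orderOf_mul_eq_mul_orderOf_of_coprime hcop, huo]
      exact Dvd.intro_left _ rfl
    · intro a _ b _ hab
      exact mul_right_cancel hab
  have hS : Nat.card {v : G₁ // v ∈ zpowers x ∧ (v = 1 ∨ p ∣ orderOf v)} = S'.card + 1 := by
    have : Nat.card {v : G₁ // v ∈ zpowers x ∧ (v = 1 ∨ p ∣ orderOf v)} = (insert 1 S').card := by
      rw [Nat.card_eq_fintype_card, ← Fintype.card_coe]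
      apply Fintype.card_congr
      refine Equiv.subtypeEquivRight (fun v => ?_)
      simp only [hS', hX, Finset.mem_insert, Finset.mem_filter, Finset.mem_univ, true_and]
      constructor
      · rintro ⟨h1, h2 | h2⟩
        · exact Or.inl h2
        · exact Or.inr ⟨h1, h2⟩
      · rintro (rfl | ⟨h1, h2⟩)
        · exact ⟨Subgroup.one_mem _, Or.inl rfl⟩
        · exact ⟨h1, Or.inr h2⟩
    rw [this, Finset.card_insert_of_notMem]
    simp only [hS', hX, Finset.mem_filter, Finset.mem_univ, true_and, not_and]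
    intro _ h
    rw [orderOf_one] at h
    exact hp.one_lt.ne' (Nat.dvd_one.1 h)
  rw [← hSD, hS] at hDm
  obtain ⟨c, hc⟩ := hDm
  have hc1 : c = 1 := by
    rcases Nat.lt_or_ge c 2 with h | h
    · interval_cases c
      · omega
      · rfl
    · exfalso
      have : (S'.card + 1) * 2 ≤ (S'.card + 1) * c := Nat.mul_le_mul_left _ h
      omega
  rw [hc1, mul_one] at hc
  have hK1 : K.card = 1 := by omega
  have h1K : (1 : G₁) ∈ K := by
    simp only [hK, hX, Finset.mem_filter, Finset.mem_univ, true_and]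
    refine ⟨Subgroup.one_mem _, ?_⟩
    rw [orderOf_one]
    exact fun h => hp.one_lt.ne' (Nat.dvd_one.1 h)
  have hwK : w ∈ K := by
    simp only [hK, hX, Finset.mem_filter, Finset.mem_univ, true_and]
    refine ⟨hwx, ?_⟩
    rw [hwo]
    exact fun h => hqp ((Nat.prime_dvd_prime_iff_eq hp hq).1 h).symm
  have hw1 : w = 1 := Finset.card_le_one.1 hK1.le _ hwK _ h1K
  rw [hw1, orderOf_one] at hwo
  exact hq.one_lt.ne hwo

lemma eppo2 (φ : powerGraph G₁ ≃g commutingGraph G₂) (h1 : IsEPPO G₁) : IsEPPO G₂ := by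
  classical
  intro y
  obtain ⟨A, ⟨hyA, hAc⟩, hmax⟩ := Set.exists_max_image
    {A : Subgroup G₂ | y ∈ A ∧ ∀ a ∈ A, ∀ b ∈ A, a * b = b * a} (fun A => Nat.card A)
    (Set.toFinite _) ⟨zpowers y, mem_zpowers y, fun a ha b hb => by
      obtain ⟨i, rfl⟩ := ha
      obtain ⟨j, rfl⟩ := hb
      exact ((Commute.refl y).zpow_zpow i j).eq⟩
  obtain ⟨w, hwA, hwmax⟩ := Set.exists_max_image {v : G₁ | φ v ∈ A} orderOf
    (Set.toFinite _) ⟨φ.symm y, by
      change φ (φ.symm y) ∈ A
      rw [RelIso.apply_symm_apply]; exact hyA⟩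
  have hB : ∀ v, φ v ∈ A → v ∈ zpowers w := by
    intro v hv
    rcases (cmp_iff φ v w).2 (hAc _ hv _ hwA) with h | h
    · exact h
    · have h3 : zpowers w = zpowers v := by
        apply Subgroup.eq_of_le_of_card_ge (zpowers_le.2 h)
        rw [Nat.card_zpowers, Nat.card_zpowers]
        exact hwmax v hv
      rw [h3]; exact mem_zpowers v
  obtain ⟨p, k, hp, hk⟩ := h1 w
  have hcomm : ∀ a ∈ φ '' (zpowers w : Set G₁), ∀ b ∈ φ '' (zpowers w : Set G₁),
      a * b = b * a := by
    rintro _ ⟨a, ha, rfl⟩ _ ⟨b, hb, rfl⟩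
    exact (cmp_iff φ a b).1 (cmp_of_pgroup hp hk ha hb)
  set A' : Subgroup G₂ := closure (φ '' (zpowers w : Set G₁)) with hA'
  have hA'c : ∀ a ∈ A', ∀ b ∈ A', a * b = b * a := by
    intro a ha b hb
    have := Subgroup.isMulCommutative_closure hcomm
    have h := this.is_comm.comm ⟨a, ha⟩ ⟨b, hb⟩
    exact congrArg Subtype.val h
  have hAsub : (A : Set G₂) ⊆ φ '' (zpowers w : Set G₁) := by
    intro a ha
    refine ⟨φ.symm a, ?_, by simp⟩
    apply hB
    rw [RelIso.apply_symm_apply]; exact ha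
  have hAA' : A ≤ A' := fun a ha => subset_closure (hAsub ha)
  have heq : A = A' := Subgroup.eq_of_le_of_card_ge hAA' (hmax A' ⟨hAA' hyA, hA'c⟩)
  have hset : (A : Set G₂) = φ '' (zpowers w : Set G₁) := by
    apply Set.Subset.antisymm hAsub
    rw [heq]
    exact subset_closure
  have hcard : Nat.card A = p ^ k := by
    rw [← hk, ← Nat.card_zpowers]
    have e1 : Nat.card A = Nat.card (φ '' (zpowers w : Set G₁)) := by
      rw [← hset]; rfl
    rw [e1, Nat.card_image_of_injective φ.injective]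
    rfl
  have hd : orderOf y ∣ p ^ k := by
    rw [← hcard]
    exact Subgroup.orderOf_dvd_natCard A hyA
  obtain ⟨i, -, hi⟩ := (Nat.dvd_prime_pow hp).1 hd
  exact ⟨p, i, hp, hi⟩

lemma exists_special (φ : powerGraph G₁ ≃g commutingGraph G₂) (h2 : IsEPPO G₂) {p : ℕ}
    [hp : Fact p.Prime] (hdvd : p ∣ Nat.card G₁) :
    ∃ x : G₁, x ≠ 1 ∧ Nat.card {v : G₁ // Cmp v x} = p ^ (Nat.card G₁).factorization p := by
  have hcard : Nat.card G₁ = Nat.card G₂ := Nat.card_congr φ.toEquiv
  let R : Sylow p G₂ := default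
  have hR : Nat.card R = p ^ (Nat.card G₁).factorization p := by
    rw [hcard]; exact R.card_eq_multiplicity
  have hRne : (R : Subgroup G₂) ≠ ⊥ := R.ne_bot_of_dvd_card (hcard ▸ hdvd)
  haveI : Nontrivial R := (Subgroup.nontrivial_iff_ne_bot _).2 hRne
  haveI := R.isPGroup'.center_nontrivial
  obtain ⟨⟨⟨z, hzR⟩, hzc⟩, hz1⟩ := exists_ne (1 : Subgroup.center R)
  have hz1' : z ≠ 1 := by
    rintro rfl
    exact hz1 rfl
  obtain ⟨k, hk⟩ := (IsPGroup.iff_orderOf.1 R.isPGroup') ⟨z, hzR⟩
  rw [Subgroup.orderOf_mk] at hk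
  have hle : (R : Subgroup G₂) ≤ centralizer ({z} : Set G₂) := by
    intro r hr
    rw [mem_centralizer_singleton_iff]
    have := Subgroup.mem_center_iff.1 hzc ⟨r, hr⟩
    exact congrArg Subtype.val this
  have hcen : centralizer ({z} : Set G₂) = R :=
    R.is_maximal' (centralizer_pgroup h2 hz1' hk) hle
  have hx0 : Nat.card {v : G₁ // Cmp v (φ.symm z)} = Nat.card R := by
    rw [card_cmp φ, RelIso.apply_symm_apply, hcen]
  by_cases hx1 : φ.symm z = 1
  · refine ⟨φ.symm 1, ?_, ?_⟩
    · intro h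
      rw [← hx1] at h
      exact hz1' (φ.symm.injective h).symm
    · rw [← hR, ← hx0, hx1]
      have e1 : Nat.card {v : G₁ // Cmp v (φ.symm 1)} = Nat.card G₂ := by
        rw [card_cmp φ, RelIso.apply_symm_apply]
        have : centralizer ({1} : Set G₂) = ⊤ := by
          ext a
          rw [mem_centralizer_singleton_iff]; simp
        rw [this]
        exact Nat.card_congr Subgroup.topEquiv.toEquiv
      have e2 : Nat.card {v : G₁ // Cmp v 1} = Nat.card G₁ := by
        apply Nat.card_congr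
        exact Equiv.subtypeUnivEquiv (fun v => Or.inr (Subgroup.one_mem _))
      rw [e1, e2, hcard]
  · exact ⟨φ.symm z, hx1, by rw [hx0, hR]⟩

/-- uniqueness of the subgroups of order `p` inside `p`-subgroups of `G₁` -/
lemma unique_order_p (φ : powerGraph G₁ ≃g commutingGraph G₂) (h1 : IsEPPO G₁)
    (h2 : IsEPPO G₂) {p : ℕ} [hp : Fact p.Prime] (hdvd : p ∣ Nat.card G₁)
    (Q : Subgroup G₁) (hQ : IsPGroup p Q) (w₁ w₂ : G₁) (hw₁ : w₁ ∈ Q) (hw₂ : w₂ ∈ Q)
    (ho₁ : orderOf w₁ = p) (ho₂ : orderOf w₂ = p) : w₂ ∈ zpowers w₁ := by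
  obtain ⟨x, hx1, hxc⟩ := exists_special φ h2 hdvd
  obtain ⟨q, b, hq, hb⟩ := h1 x
  haveI := Fact.mk hq
  have hqd := dvd_card_cmp h1 hx1 hb
  rw [hxc] at hqd
  have hqp : q = p := (Nat.prime_dvd_prime_iff_eq hq hp.out).1 (hq.dvd_of_dvd_pow hqd)
  subst hqp
  set C : Subgroup G₁ := centralizer ({x} : Set G₁) with hC
  have hCp : IsPGroup q C := centralizer_pgroup h1 hx1 hb
  obtain ⟨S, hS⟩ := hCp.exists_le_sylow
  have hScard : Nat.card S = q ^ (Nat.card G₁).factorization q := S.card_eq_multiplicity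
  -- `N[x] ⊆ C ⊆ S`, with equality of cardinalities
  have hsub : {v : G₁ | Cmp v x} ⊆ (S : Set G₁) := by
    intro v hv
    apply hS
    rw [hC, mem_centralizer_singleton_iff]
    exact Cmp.commute hv
  have heq : {v : G₁ | Cmp v x} = (S : Set G₁) := by
    apply Set.eq_of_subset_of_ncard_le hsub _ (Set.toFinite _)
    rw [← Nat.card_coe_set_eq, ← Nat.card_coe_set_eq]
    exact le_of_eq (hScard.trans hxc.symm)
  have hxo : q ∣ orderOf x := by
    have hb0 : b ≠ 0 := by
      rintro rfl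
      rw [pow_zero, orderOf_eq_one_iff] at hb
      exact hx1 hb
    rw [hb]; exact dvd_pow_self q hb0
  have hUS : ∀ w ∈ S, orderOf w = q → w ∈ zpowers x := by
    intro w hw ho
    have hc : Cmp w x := by
      have : w ∈ (S : Set G₁) := hw
      rw [← heq] at this
      exact this
    rcases hc with hc | hc
    · exact hc
    · exact mem_of_dvd (mem_zpowers w) hc (by rw [ho]; exact hxo)
  obtain ⟨T, hT⟩ := hQ.exists_le_sylow
  obtain ⟨g, hg⟩ := MulAction.exists_smul_eq G₁ T S
  have hconj : ∀ w ∈ T, g * w * g⁻¹ ∈ S := by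
    intro w hw
    rw [← hg]
    have : MulAut.conj g • w ∈ MulAut.conj g • (T : Subgroup G₁) :=
      Subgroup.smul_mem_pointwise_smul _ _ _ hw
    exact this
  have hord : ∀ w : G₁, orderOf (g * w * g⁻¹) = orderOf w := fun w =>
    orderOf_injective (MulAut.conj g).toMonoidHom (MulAut.conj g).injective w
  have k1 := hUS _ (hconj w₁ (hT hw₁)) (by rw [hord, ho₁])
  have k2 := hUS _ (hconj w₂ (hT hw₂)) (by rw [hord, ho₂])
  have k3 : g * w₂ * g⁻¹ ∈ zpowers (g * w₁ * g⁻¹) :=
    mem_of_dvd k2 k1 (by rw [hord, hord, ho₁, ho₂])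
  obtain ⟨i, hi⟩ := k3
  refine ⟨i, ?_⟩
  simp only at hi ⊢
  rw [conj_zpow] at hi
  have := mul_right_cancel hi
  exact mul_left_cancel this

theorem main (h : Nonempty (powerGraph G₁ ≃g commutingGraph G₂)) :
    powerGraph G₁ = commutingGraph G₁ := by
  obtain ⟨φ⟩ := h
  have h1 := eppo1 φ
  have h2 := eppo2 φ h1
  have key : ∀ s t : G₁, s ≠ 1 → s * t = t * s → orderOf t ≤ orderOf s → t ∈ zpowers s := by
    intro s t hs hst hle
    obtain ⟨p, i, hp, hi⟩ := h1 s
    haveI := Fact.mk hp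
    have hC := centralizer_pgroup h1 hs hi
    have htc : t ∈ centralizer ({s} : Set G₁) := by
      rw [mem_centralizer_singleton_iff]; exact hst.symm
    obtain ⟨j, hj⟩ := (IsPGroup.iff_orderOf.1 hC) ⟨t, htc⟩
    rw [Subgroup.orderOf_mk] at hj
    have hji : j ≤ i := by
      rw [hi, hj] at hle
      exact (Nat.pow_le_pow_iff_right hp.one_lt).1 hle
    have hi0 : i ≠ 0 := by
      rintro rfl
      rw [pow_zero, orderOf_eq_one_iff] at hi
      exact hs hi
    have hpd : p ∣ Nat.card G₁ :=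
      (hi ▸ dvd_pow_self p hi0 : p ∣ orderOf s).trans (orderOf_dvd_natCard s)
    exact mem_of_unique hs hi
      (fun w₁ w₂ k1 k2 k3 k4 => unique_order_p φ h1 h2 hpd _ hC w₁ w₂ k1 k2 k3 k4)
      j hji t htc hj
  ext s t
  rw [adj_pow_iff]
  constructor
  · rintro ⟨h, hc⟩
    exact ⟨h, hc.commute⟩
  · rintro ⟨h, hc⟩
    refine ⟨h, ?_⟩
    by_cases hs : s = 1
    · rw [hs]; exact Or.inl (Subgroup.one_mem _)
    by_cases ht : t = 1
    · rw [ht]; exact Or.inr (Subgroup.one_mem _)
    rcases le_total (orderOf t) (orderOf s) with hle | hle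
    · exact Or.inr (key s t hs hc hle)
    · exact Or.inl (key t s ht hc.symm hle)

end Q20.PowCom
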